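import Pool.Agent.Lib.TC.StepD
import Pool.Agent.Lib.TC.StepAk
import Pool.Agent.Lib.TC.StepU
import Pool.Agent.Lib.TC.IQ
import Pool.Agent.Lib.TC.FinF
import Pool.Agent.Lib.TC.Out
import Pool.Agent.Lib.TU.MainU

/-!
Embedded local uniformization in characteristic p, in all dimensions, along all valuations of
function fields over a perfect field which are composed of discrete valuations, Abhyankar valuations
(or valuations which are Abhyankar modulo the implicit prime) and valuations of rank one and
transcendence defect one.
-/

namespace Pool.Agent.Lib.MP_3029eb_ag.Old.CompositeFunctionFields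

/-- The homomorphism from a field `k` with image in `V` to the residue field of `V`. -/
noncomputable def residueMap {k K : Type} [Field k] [Field K] [Algebra k K]
    (V : ValuationSubring K) (h : ∀ c : k, algebraMap k K c ∈ V) :
    k →+* IsLocalRing.ResidueField V :=
  (IsLocalRing.residue V).comp ((algebraMap k K).codRestrict V.toSubring h)

/-- The transcendence degree over `k` of the residue field of `V` is `s`. -/
def ResidueTrdeg {k K : Type} [Field k] [Field K] [Algebra k K] (V : ValuationSubring K)
    (h : ∀ c : k, algebraMap k K c ∈ V) (s : ℕ) : Prop :=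
  letI := (residueMap V h).toAlgebra
  Algebra.trdeg k (IsLocalRing.ResidueField V) = (s : Cardinal)

/-- The `x i` are units of `V1` whose values for `V` are rationally independent: `W` has rational
rank at least `r`.  (Here and below `V` is contained in `V1`, and `W` is the valuation ring induced
by `V` on the residue field of `V1`.) -/
def IndependentValues {K : Type} [Field K] (V1 V : ValuationSubring K) {r : ℕ} (x : Fin r → K) :
    Prop :=
  (∀ i, V1.valuation (x i) = 1) ∧ ∀ m : Fin r → ℤ, V.valuation (∏ i, x i ^ m i) = 1 → m = 0

/-- Any `r + 1` units of `V1` have rationally dependent values for `V`: `W` has rational rank at most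
`r`. -/
def DependentValues {K : Type} [Field K] (V1 V : ValuationSubring K) (r : ℕ) : Prop :=
  ∀ z : Fin (r + 1) → K, (∀ i, V1.valuation (z i) = 1) →
    ∃ m : Fin (r + 1) → ℤ, m ≠ 0 ∧ V.valuation (∏ i, z i ^ m i) = 1

/-- The value group of `W` is archimedean: `W` has rank at most one. -/
def IsRankOneStep {K : Type} [Field K] (V1 V : ValuationSubring K) : Prop :=
  ∀ a b : K, V1.valuation a = 1 → V1.valuation b = 1 → V.valuation b < 1 →
    ∃ n : ℕ, V.valuation (b ^ n) ≤ V.valuation a

/-- `W` is discrete of rank one: the values in the value group of `V` of the units of `V1` form an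
infinite cyclic group. -/
def IsDiscreteStep {K : Type} [Field K] (V1 V : ValuationSubring K) : Prop :=
  ∃ π : K, V1.valuation π = 1 ∧ V.valuation π < 1 ∧
    ∀ z : K, V1.valuation z = 1 → ∃ n : ℤ, V.valuation z = V.valuation (π ^ n)

/-- `A` is a finitely generated `R`-algebra in `V`, `P1` and `P` are the centres of `V1` and `V` on
`A`, and the residue field of `V1` is algebraic over `A / P1`: so `W` dominates the local ring of
`A / P1` at `P / P1`, whose fraction field has the residue field of `V1` as an algebraic extension.
-/
structure IsModel {R K : Type} [CommRing R] [Field K] [Algebra R K]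
    (V1 V : ValuationSubring K) (A : Subalgebra R K) (P1 P : Ideal A) : Prop where
  fg : A.FG
  le : ∀ a : A, (a : K) ∈ V
  centre1 : ∀ a : A, a ∈ P1 ↔ V1.valuation (a : K) < 1
  centre : ∀ a : A, a ∈ P ↔ V.valuation (a : K) < 1
  alg : ∀ z : K, z ∈ V1 → ∃ f : Polynomial A,
    (∃ n, V1.valuation ((f.coeff n : A) : K) = 1) ∧ V1.valuation (Polynomial.aeval z f) < 1

/-- The `x i` are units of `V1` whose values for `V` are rationally independent, and the `y j` are
elements of `V` whose residues are algebraically independent over `A / P`, where `P` is the centre of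
`V` on `A`. -/
structure IsIndependent {R K : Type} [CommRing R] [Field K] [Algebra R K]
    (V1 V : ValuationSubring K) (A : Subalgebra R K) {r s : ℕ} (x : Fin r → K) (y : Fin s → K) :
    Prop where
  unit : ∀ i, V1.valuation (x i) = 1
  value : ∀ m : Fin r → ℤ, V.valuation (∏ i, x i ^ m i) = 1 → m = 0
  mem : ∀ j, y j ∈ V
  residue : ∀ p : MvPolynomial (Fin s) A, V.valuation (MvPolynomial.aeval y p) < 1 →
    ∀ m, V.valuation ((MvPolynomial.coeff m p : A) : K) < 1

/-- The implicit ideal of `V` relative to `V1` in the completion of the local ring of `A` at the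
centre `P` of `V`: the intersection, over all elements `d` of `A` which are units of `V1`, of the
ideals generated by the elements of `A` whose value for `V` is at least the value of `d`. -/
noncomputable def implicitIdeal {R K : Type} [CommRing R] [Field K] [Algebra R K]
    (V1 V : ValuationSubring K) (A : Subalgebra R K) (P : Ideal A) [P.IsPrime] :
    Ideal (AdicCompletion (IsLocalRing.maximalIdeal (Localization.AtPrime P))
      (Localization.AtPrime P)) :=
  ⨅ d : {d : A // V1.valuation (d : K) = 1}, Ideal.span
    ((fun a : A => algebraMap (Localization.AtPrime P)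
      (AdicCompletion (IsLocalRing.maximalIdeal (Localization.AtPrime P)) (Localization.AtPrime P))
      (algebraMap A (Localization.AtPrime P) a)) ''
      {a : A | V.valuation (a : K) ≤ V.valuation ((d : A) : K)})

/-- `W` has rank one and is an Abhyankar valuation modulo the implicit prime: for some model `A`, with
`r ≥ 1` independent values and `s` independent residues, the completion of `A` at `P` modulo the
implicit ideal has dimension at most `r + s`. -/
def IsImplicitStep (R : Type) {K : Type} [CommRing R] [Field K] [Algebra R K]
    (V1 V : ValuationSubring K) (r : ℕ) : Prop :=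
  0 < r ∧ IsRankOneStep V1 V ∧
    ∃ (A : Subalgebra R K) (P1 P : Ideal A) (_ : P.IsPrime), IsModel V1 V A P1 P ∧
      ∃ (s : ℕ) (x : Fin r → K) (y : Fin s → K), IsIndependent V1 V A x y ∧
        ringKrullDim (AdicCompletion (IsLocalRing.maximalIdeal (Localization.AtPrime P))
          (Localization.AtPrime P) ⧸ implicitIdeal V1 V A P) ≤ ((r + s : ℕ) : WithBot ℕ∞)

/-- `V` is composed of finitely many valuations of the following types: there is a chain of valuation
rings `K = V 0 ⊇ V 1 ⊇ ... ⊇ V n = V` containing `k` such that the valuation ring `W` induced by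
`V (i + 1)` on the residue field `κ` of `V i` is of one of the following types.  Here `κ'` is the
residue field of `V (i + 1)` and `r` is the rational rank of `W`.

* discrete of rank one (`κ` and `κ'` are arbitrary);
* Abhyankar over `k` (of any rank): the transcendence degree of `κ / k` is finite and at most `r` plus
  the transcendence degree of `κ' / k`;
* of rank one and Abhyankar modulo the implicit prime (`IsImplicitStep`; the transcendence degree of
  `κ / k` may be arbitrarily large);
* of rank one, with transcendence defect one: the transcendence degree of `κ / k` is `r + 1` plus the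
  transcendence degree of `κ' / k`.

The integer `r` in `IsComposite k V r` is the sum of the rational ranks. -/
inductive IsComposite (k : Type) {K : Type} [Field k] [Field K] [Algebra k K] :
    ValuationSubring K → ℕ → Prop
  | trivial : IsComposite k ⊤ 0
  | discrete (V1 V : ValuationSubring K) (r : ℕ) :
      IsComposite k V1 r → V ≤ V1 → IsDiscreteStep V1 V → IsComposite k V (r + 1)
  | abhyankar (V1 V : ValuationSubring K) (r1 r s : ℕ) (x : Fin r → K)
      (hk1 : ∀ c : k, algebraMap k K c ∈ V1) (hk : ∀ c : k, algebraMap k K c ∈ V) :
      IsComposite k V1 r1 → V ≤ V1 → IndependentValues V1 V x → ResidueTrdeg V hk s →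
      (∃ t ≤ r + s, ResidueTrdeg V1 hk1 t) → IsComposite k V (r1 + r)
  | implicit (V1 V : ValuationSubring K) (r1 r : ℕ) :
      IsComposite k V1 r1 → V ≤ V1 → IsImplicitStep k V1 V r → IsComposite k V (r1 + r)
  | defectOne (V1 V : ValuationSubring K) (r1 r s : ℕ) (x : Fin r → K)
      (hk1 : ∀ c : k, algebraMap k K c ∈ V1) (hk : ∀ c : k, algebraMap k K c ∈ V) :
      IsComposite k V1 r1 → V ≤ V1 → IsRankOneStep V1 V → 0 < r → IndependentValues V1 V x →
      DependentValues V1 V r → ResidueTrdeg V hk s → ResidueTrdeg V1 hk1 (r + s + 1) →
      IsComposite k V (r1 + r)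

/-- The element `f` of `K` is a unit of the localization of `A` at `P` times the Laurent monomial
`∏ u i ^ m i`. -/
def IsUnitMulMonomial {R K : Type} [CommRing R] [Field K] [Algebra R K] (A : Subalgebra R K)
    (P : Ideal A) {r : ℕ} (u : Fin r → A) (m : Fin r → ℤ) (f : K) : Prop :=
  ∃ a b : A, a ∉ P ∧ b ∉ P ∧ f * b = a * ∏ i, (u i : K) ^ m i

theorem mainU {p : ℕ} [Fact p.Prime] : TC.MainU p := by
  intro k _ _ _ R K _ _ _ _ _ _ _ _ _ V harch hRV r m hr htr x hx0 hx hrank y hyV hy hres
  exact Pool.Agent.Lib.TU.main_embU p k R K V harch hRV r m hr htr x hx0 hx hrank y hyV hy hres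

theorem unif {p : ℕ} [Fact p.Prime] {k : Type} [Field k] [PerfectField k] [CharP k p] {K : Type}
    [Field K] [Algebra k K] {V : ValuationSubring K} {r : ℕ} (h : IsComposite k V r) :
    TC.Unif (algebraMap k K) V r := by
  induction h with
  | trivial => exact TC.Unif_top _
  | discrete V1 V r _ hle h2 ih =>
    obtain ⟨π, h3, h4, h5⟩ := h2
    exact TC.unif_D (TC.goodBase_of_field k) _ ⟨hle, h3, h4, h5⟩ ih
  | abhyankar V1 V r1 r s x hk1 hk _ hle hx hs hs1 ih =>
    obtain ⟨t, ht, hs1⟩ := hs1
    refine TC.unif_Ak hle hk1 hk hx.1 hx.2 hs ?_ ih
    refine hs1.trans_le ?_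
    exact_mod_cast ht
  | implicit V1 V r1 r _ hle h2 ih =>
    obtain ⟨hr, harch, A, P1, P, hP, M, s, x, y, I, hdim⟩ := h2
    exact TC.unif_IQ (TC.goodBase_of_field k) hle harch A M.fg M.le P M.centre M.alg hr x I.unit
      I.value y I.mem I.residue hdim ih
  | defectOne V1 V r1 r s x hk1 hk _ hle harch hr hx hrank hs ht ih =>
    exact TC.unif_U (p := p) mainU hle hk1 hk harch hr x hx.1 hx.2 hrank hs ht ih

/-- Let `k` be a perfect field of characteristic `p > 0` and `R` a domain which is
essentially of finite type over `k`, with fraction field `K` of transcendence degree `n` over `k`.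
Let `V` be a valuation ring of `K` containing `R`, composed of finitely many valuations which are
discrete, Abhyankar (or Abhyankar modulo the implicit prime) or of rank one and transcendence
defect one (`IsComposite`), with total rational rank `r`, and let `s` be the transcendence degree over `k` of
the residue field of `V`.  Then for every finite set `F` of nonzero elements of `K` there is a
finitely generated `R`-subalgebra `A` of `K` in `V` whose localization `A_P` at the centre `P` of `V`
is regular of dimension `n - s = r + h`, with a regular system of parameters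
`u 1, ..., u r, w 1, ..., w h` in `A` such that the values of the `u i` are rationally independent,
every element of `F` is a unit of `A_P` times a Laurent monomial in the `u i` (a monomial, if the
element lies in `V`), and every element of `A` is a fraction of elements of `R` whose denominator is
a unit of `A_P` times a monomial in the `u i`. -/
theorem result :
    ∀ (p : ℕ) [Fact p.Prime] (k : Type) [Field k] [PerfectField k] [CharP k p]
      (R : Type) [CommRing R] [IsDomain R] [Algebra k R] [Algebra.EssFiniteType k R]
      (K : Type) [Field K] [Algebra R K] [IsFractionRing R K] [Algebra k K] [IsScalarTower k R K]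
      (V : ValuationSubring K),
      (∀ a : R, algebraMap R K a ∈ V) →
      ∀ (hk : ∀ c : k, algebraMap k K c ∈ V) (r s n : ℕ), IsComposite k V r →
        ResidueTrdeg V hk s → Algebra.trdeg k K = (n : Cardinal) →
        ∀ F : Finset K, (∀ f ∈ F, f ≠ 0) →
        ∃ A : Subalgebra R K, A.FG ∧ (∀ a : A, (a : K) ∈ V) ∧
          ∃ P : Ideal A, ∃ (_ : P.IsPrime),
            (∀ a : A, a ∈ P ↔ V.valuation (a : K) < 1) ∧
            IsRegularLocalRing (Localization.AtPrime P) ∧
            ∃ (h : ℕ) (u : Fin r → A) (w : Fin h → A),
              r + h + s = n ∧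
              ringKrullDim (Localization.AtPrime P) = (((r + h : ℕ) : ℕ∞) : WithBot ℕ∞) ∧
              IsLocalRing.maximalIdeal (Localization.AtPrime P) =
                Ideal.span ((Set.range fun i => algebraMap A (Localization.AtPrime P) (u i)) ∪
                  Set.range fun j => algebraMap A (Localization.AtPrime P) (w j)) ∧
              (∀ m : Fin r → ℤ, V.valuation (∏ i, (u i : K) ^ m i) = 1 → m = 0) ∧
              (∀ f ∈ F, ∃ m : Fin r → ℤ,
                IsUnitMulMonomial A P u m f ∧ (f ∈ V → ∀ i, 0 ≤ m i)) ∧
              ∀ z : A, ∃ d e : R, algebraMap R K d * z = algebraMap R K e ∧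
                ∃ m : Fin r → ℤ, (∀ i, 0 ≤ m i) ∧
                  IsUnitMulMonomial A P u m (algebraMap R K d) := by
  intro p _ k _ _ _ R _ _ _ _ K _ _ _ _ _ V hRV hk r s n hV hs hn F hF
  have : IsNoetherianRing R := Algebra.EssFiniteType.isNoetherianRing k R
  obtain ⟨A, hA, hAV, P, hP, hPV, hreg, h, u, w, hdim, ⟨m, hm1, hm2⟩, hmax, hu, hm, hd⟩ :=
    TC.emb3_to_subalgebra V hRV (fun z => by
      obtain ⟨⟨a, b⟩, hab⟩ := IsLocalization.surj (nonZeroDivisors R) z
      refine ⟨_, ⟨a, rfl⟩, _, ⟨b, rfl⟩, ?_, hab⟩
      intro h0
      exact nonZeroDivisors.ne_zero b.2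
        (IsFractionRing.injective R K (by rw [h0, map_zero])))
      (TC.finF k R K V hRV hk hn hs (unif (p := p) hV)) F hF
  refine ⟨A, hA, hAV, P, hP, hPV, hreg, h, u, w, ?_, hdim, hmax, hu, hm, hd⟩
  have h1 : r + h = m := by exact_mod_cast hm1
  omega

end Pool.Agent.Lib.MP_3029eb_ag.Old.CompositeFunctionFields
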