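import Pool.Agent.Lib.TC.StepD
import Pool.Agent.Lib.TC.AQ
import Pool.Agent.Lib.TC.IQ
import Pool.Agent.Lib.TC.Base
import Pool.Agent.Lib.TC.FinQ
import Pool.Agent.Lib.TC.Out
import Pool.Agent.Lib.CQ.QQ

/-!
Embedded local uniformization of quasi-excellent local domains, in every dimension and
characteristic, along all valuations which are composed of finitely many discrete valuations,
Abhyankar valuations, valuations of rank one which are Abhyankar modulo the implicit prime, and (in
characteristic `p`) valuations of rank one which have transcendence defect one modulo the implicit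
prime.
-/

open scoped TensorProduct

namespace Pool.Agent.Lib.MP_3029eb_ag.Old.CompositeQuasiExcellent

/-- The noetherian local ring `R` is quasi-excellent: its formal fibres are geometrically regular,
that is, for every prime `p` of `R`, every finite extension field `L` of the residue field of `p`
and every prime `Q` of the tensor product of `L` with the completion of `R`, the localization at
`Q` is a regular local ring. -/
def QuasiExcellent (R : Type) [CommRing R] [IsLocalRing R] : Prop :=
  ∀ (p : Ideal R) [p.IsPrime] (L : Type) [Field L] [Algebra R L]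
      [Algebra p.ResidueField L] [IsScalarTower R p.ResidueField L]
      [FiniteDimensional p.ResidueField L]
      (Q : Ideal (L ⊗[R] AdicCompletion (IsLocalRing.maximalIdeal R) R)) [Q.IsPrime],
      IsRegularLocalRing (Localization.AtPrime Q)

/-- `W` is discrete of rank one: the values in the value group of `V` of the units of `V1` form an
infinite cyclic group.  (Here and below `V` is contained in `V1`, and `W` is the valuation ring
induced by `V` on the residue field of `V1`.) -/
def IsDiscreteStep {K : Type} [Field K] (V1 V : ValuationSubring K) : Prop :=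
  ∃ π : K, V1.valuation π = 1 ∧ V.valuation π < 1 ∧
    ∀ z : K, V1.valuation z = 1 → ∃ n : ℤ, V.valuation z = V.valuation (π ^ n)

/-- The value group of `W` is archimedean: `W` has rank at most one. -/
def IsRankOneStep {K : Type} [Field K] (V1 V : ValuationSubring K) : Prop :=
  ∀ a b : K, V1.valuation a = 1 → V1.valuation b = 1 → V.valuation b < 1 →
    ∃ n : ℕ, V.valuation (b ^ n) ≤ V.valuation a

/-- Any `r + 1` units of `V1` have rationally dependent values for `V`: `W` has rational rank at most
`r`. -/
def DependentValues {K : Type} [Field K] (V1 V : ValuationSubring K) (r : ℕ) : Prop :=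
  ∀ z : Fin (r + 1) → K, (∀ i, V1.valuation (z i) = 1) →
    ∃ m : Fin (r + 1) → ℤ, m ≠ 0 ∧ V.valuation (∏ i, z i ^ m i) = 1

/-- `A` is a finitely generated `R`-algebra in `V`, `P1` and `P` are the centres of `V1` and `V` on
`A`, and the residue field of `V1` is algebraic over `A / P1`: so `W` dominates the local ring of
`A / P1` at `P / P1`, whose fraction field has the residue field of `V1` as an algebraic extension.
-/
structure IsModel {R K : Type} [CommRing R] [Field K] [Algebra R K]
    (V1 V : ValuationSubring K) (A : Subalgebra R K) (P1 P : Ideal A) : Prop where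
  fg : A.FG
  le : ∀ a : A, (a : K) ∈ V
  centre1 : ∀ a : A, a ∈ P1 ↔ V1.valuation (a : K) < 1
  centre : ∀ a : A, a ∈ P ↔ V.valuation (a : K) < 1
  alg : ∀ z : K, z ∈ V1 → ∃ f : Polynomial A,
    (∃ n, V1.valuation ((f.coeff n : A) : K) = 1) ∧ V1.valuation (Polynomial.aeval z f) < 1

/-- The `x i` are units of `V1` whose values for `V` are rationally independent, and the `y j` are
elements of `V` whose residues are algebraically independent over `A / P`, where `P` is the centre of
`V` on `A`. -/
structure IsIndependent {R K : Type} [CommRing R] [Field K] [Algebra R K]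
    (V1 V : ValuationSubring K) (A : Subalgebra R K) {r s : ℕ} (x : Fin r → K) (y : Fin s → K) :
    Prop where
  unit : ∀ i, V1.valuation (x i) = 1
  value : ∀ m : Fin r → ℤ, V.valuation (∏ i, x i ^ m i) = 1 → m = 0
  mem : ∀ j, y j ∈ V
  residue : ∀ p : MvPolynomial (Fin s) A, V.valuation (MvPolynomial.aeval y p) < 1 →
    ∀ m, V.valuation ((MvPolynomial.coeff m p : A) : K) < 1

/-- `W` is an Abhyankar valuation: for some model `A` the local ring of `A / P1` at `P / P1` has
dimension at most `r + s`, with `r` independent values and `s` independent residues (so equality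
holds in Abhyankar's inequality for `W` over this local ring). -/
def IsAbhyankarStep (R : Type) {K : Type} [CommRing R] [Field K] [Algebra R K]
    (V1 V : ValuationSubring K) (r : ℕ) : Prop :=
  ∃ (A : Subalgebra R K) (P1 P : Ideal A), IsModel V1 V A P1 P ∧
    ∃ (s : ℕ) (x : Fin r → K) (y : Fin s → K), IsIndependent V1 V A x y ∧
      (P.map (Ideal.Quotient.mk P1)).height ≤ ((r + s : ℕ) : ℕ∞)

/-- The implicit ideal of `V` relative to `V1` in the completion of the local ring of `A` at the
centre `P` of `V`: the intersection, over all elements `d` of `A` which are units of `V1`, of the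
ideals generated by the elements of `A` whose value for `V` is at least the value of `d`. -/
noncomputable def implicitIdeal {R K : Type} [CommRing R] [Field K] [Algebra R K]
    (V1 V : ValuationSubring K) (A : Subalgebra R K) (P : Ideal A) [P.IsPrime] :
    Ideal (AdicCompletion (IsLocalRing.maximalIdeal (Localization.AtPrime P))
      (Localization.AtPrime P)) :=
  ⨅ d : {d : A // V1.valuation (d : K) = 1}, Ideal.span
    ((fun a : A => algebraMap (Localization.AtPrime P)
      (AdicCompletion (IsLocalRing.maximalIdeal (Localization.AtPrime P)) (Localization.AtPrime P))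
      (algebraMap A (Localization.AtPrime P) a)) ''
      {a : A | V.valuation (a : K) ≤ V.valuation ((d : A) : K)})

/-- `W` has rank one and is an Abhyankar valuation modulo the implicit prime: for some model `A`, with
`r ≥ 1` independent values and `s` independent residues, the completion of `A` at `P` modulo the
implicit ideal has dimension at most `r + s`. -/
def IsImplicitStep (R : Type) {K : Type} [CommRing R] [Field K] [Algebra R K]
    (V1 V : ValuationSubring K) (r : ℕ) : Prop :=
  0 < r ∧ IsRankOneStep V1 V ∧
    ∃ (A : Subalgebra R K) (P1 P : Ideal A) (_ : P.IsPrime), IsModel V1 V A P1 P ∧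
      ∃ (s : ℕ) (x : Fin r → K) (y : Fin s → K), IsIndependent V1 V A x y ∧
        ringKrullDim (AdicCompletion (IsLocalRing.maximalIdeal (Localization.AtPrime P))
          (Localization.AtPrime P) ⧸ implicitIdeal V1 V A P) ≤ ((r + s : ℕ) : WithBot ℕ∞)

/-- `W` has characteristic `p > 0`, rank one, rational rank `r` and transcendence defect at most one
modulo the implicit prime: the residue field of `V1` has characteristic `p`, the value group of `W`
is archimedean of rational rank `r ≥ 1`, and for some model `A` such that the residue field of `A` at
`P` is finitely generated over a perfect field, there are `s` elements of `V` whose residues form a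
transcendence basis of the residue field of `V` over the residue field of `A` at `P`, and the
completion of `A` at `P` modulo the implicit ideal has dimension at most `r + s + 1`.  No condition
on the value group, on the residue field of `V` or on the defect (in the sense of ramification theory)
is made. -/
def IsDefectOneStep (R : Type) {K : Type} [CommRing R] [Field K] [Algebra R K]
    (V1 V : ValuationSubring K) (r : ℕ) : Prop :=
  0 < r ∧ IsRankOneStep V1 V ∧ DependentValues V1 V r ∧
    (∃ p : ℕ, p.Prime ∧ V1.valuation (p : K) < 1) ∧
    ∃ (A : Subalgebra R K) (P1 P : Ideal A) (_ : P.IsPrime), IsModel V1 V A P1 P ∧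
      (∃ (k : Type) (_ : Field k) (_ : PerfectField k) (_ : Algebra k P.ResidueField),
        Algebra.EssFiniteType k P.ResidueField) ∧
      ∃ (s : ℕ) (x : Fin r → K) (y : Fin s → K), IsIndependent V1 V A x y ∧
        (∀ z : K, z ∈ V → ∃ f : Polynomial (Algebra.adjoin A (Set.range y)),
          (∃ n, V.valuation ((f.coeff n : Algebra.adjoin A (Set.range y)) : K) = 1) ∧
            V.valuation (Polynomial.aeval z f) < 1) ∧
        ringKrullDim (AdicCompletion (IsLocalRing.maximalIdeal (Localization.AtPrime P))
          (Localization.AtPrime P) ⧸ implicitIdeal V1 V A P) ≤ ((r + s + 1 : ℕ) : WithBot ℕ∞)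

/-- `V` is composed of finitely many valuations of the four types: there is a chain of valuation
rings `K = V 0 ⊇ V 1 ⊇ ... ⊇ V n = V` such that each valuation ring `W` induced by `V (i + 1)` on
the residue field of `V i` is discrete, or Abhyankar, or of rank one and Abhyankar modulo the
implicit prime, or of characteristic `p`, rank one and transcendence defect one modulo the implicit
prime; `r` is the sum of the rational ranks (one for each discrete step). -/
inductive IsComposite (R : Type) {K : Type} [CommRing R] [Field K] [Algebra R K] :
    ValuationSubring K → ℕ → Prop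
  | trivial : IsComposite R ⊤ 0
  | discrete (V1 V : ValuationSubring K) (r : ℕ) :
      IsComposite R V1 r → V ≤ V1 → IsDiscreteStep V1 V → IsComposite R V (r + 1)
  | abhyankar (V1 V : ValuationSubring K) (r1 r : ℕ) :
      IsComposite R V1 r1 → V ≤ V1 → IsAbhyankarStep R V1 V r → IsComposite R V (r1 + r)
  | implicit (V1 V : ValuationSubring K) (r1 r : ℕ) :
      IsComposite R V1 r1 → V ≤ V1 → IsImplicitStep R V1 V r → IsComposite R V (r1 + r)
  | defectOne (V1 V : ValuationSubring K) (r1 r : ℕ) :
      IsComposite R V1 r1 → V ≤ V1 → IsDefectOneStep R V1 V r → IsComposite R V (r1 + r)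

/-- The element `f` of `K` is a unit of the localization of `A` at `P` times the Laurent monomial
`∏ u i ^ m i`. -/
def IsUnitMulMonomial {R K : Type} [CommRing R] [Field K] [Algebra R K] (A : Subalgebra R K)
    (P : Ideal A) {r : ℕ} (u : Fin r → A) (m : Fin r → ℤ) (f : K) : Prop :=
  ∃ a b : A, a ∉ P ∧ b ∉ P ∧ f * b = a * ∏ i, (u i : K) ^ m i

theorem unif {R : Type} [CommRing R] (hR : TC.GoodBase R) {K : Type} [Field K] [Algebra R K]
    {V : ValuationSubring K} {r : ℕ} (h : IsComposite R V r) :
    TC.Unif (algebraMap R K) V r := by
  induction h with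
  | trivial => exact TC.Unif_top _
  | discrete V1 V r _ hle h2 ih =>
    obtain ⟨π, h3, h4, h5⟩ := h2
    exact TC.unif_D hR _ ⟨hle, h3, h4, h5⟩ ih
  | abhyankar V1 V r1 r _ hle h2 ih =>
    obtain ⟨A, P1, P, M, s, x, y, I, hdim⟩ := h2
    exact TC.unif_AQ hR hle A M.fg M.le P1 P M.centre1 M.centre M.alg x I.unit I.value y I.mem
      I.residue hdim ih
  | implicit V1 V r1 r _ hle h2 ih =>
    obtain ⟨hr, harch, A, P1, P, hP, M, s, x, y, I, hdim⟩ := h2
    exact TC.unif_IQ hR hle harch A M.fg M.le P M.centre M.alg hr x I.unit I.value y I.mem
      I.residue hdim ih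
  | defectOne V1 V r1 r _ hle h2 ih =>
    obtain ⟨hr, harch, hrank, ⟨p, hp, hp1⟩, A, P1, P, hP, M, ⟨k, i1, i2, i3, hk⟩, s, x, y, I, hy,
      hdim⟩ := h2
    have : Fact p.Prime := ⟨hp⟩
    refine CQ.unif_QQ p hR hle harch A M.fg M.le P M.centre M.alg hr x I.unit I.value hrank y I.mem
      I.residue hy hp1 (algebraMap k P.ResidueField) ?_ hdim ih
    have h1 : (algebraMap k P.ResidueField).toAlgebra = i3 := Algebra.algebra_ext _ _ fun _ => rfl
    show @Algebra.EssFiniteType k P.ResidueField _ _ (algebraMap k P.ResidueField).toAlgebra
    rw [h1]
    exact hk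

/-- Let `R` be a quasi-excellent local domain with fraction field `K`.  Let `V` be a valuation
ring of `K` dominating `R` which is composed of finitely many discrete valuations, Abhyankar
valuations, valuations of rank one which are Abhyankar modulo the implicit prime, and valuations in
characteristic `p` of rank one which have transcendence defect one modulo the implicit prime
(`IsComposite`), and let
`y 1, ..., y s` be elements of `V` whose residues are algebraically independent over the residue
field of `R` (for instance `s = 0`).  Let `F` be a finite set of nonzero elements of `K`.  Then there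
is a finitely generated subalgebra `A` of `K` in `V` whose localization `A_P` at the centre `P` of
`V` is regular of some dimension `r + h ≤ dim R - s`, with a regular system of parameters
`u 1, ..., u r, w 1, ..., w h` in `A` such that the values of the `u i` are rationally independent,
every element of `F` is a unit of `A_P` times a Laurent monomial in the `u i` (a monomial, if the
element lies in `V`), and every element of `A` is a fraction of elements of `R` whose denominator is
a unit of `A_P` times a monomial in the `u i`. -/
theorem result :
    ∀ (R : Type) [CommRing R] [IsDomain R] [IsNoetherianRing R] [IsLocalRing R]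
      (K : Type) [Field K] [Algebra R K] [IsFractionRing R K],
      QuasiExcellent R →
      ∀ (V : ValuationSubring K),
        (∀ a : R, algebraMap R K a ∈ V) →
        (∀ a : R, a ∈ IsLocalRing.maximalIdeal R ↔ V.valuation (algebraMap R K a) < 1) →
        ∀ r : ℕ, IsComposite R V r →
        ∀ (s : ℕ) (y : Fin s → K), (∀ j, y j ∈ V) →
        (∀ p : MvPolynomial (Fin s) R, V.valuation (MvPolynomial.aeval y p) < 1 →
          ∀ m, MvPolynomial.coeff m p ∈ IsLocalRing.maximalIdeal R) →
        ∀ F : Finset K, (∀ f ∈ F, f ≠ 0) →
        ∃ A : Subalgebra R K, A.FG ∧ (∀ a : A, (a : K) ∈ V) ∧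
          ∃ P : Ideal A, ∃ (_ : P.IsPrime),
            (∀ a : A, a ∈ P ↔ V.valuation (a : K) < 1) ∧
            IsRegularLocalRing (Localization.AtPrime P) ∧
            ∃ (h : ℕ) (u : Fin r → A) (w : Fin h → A),
              ringKrullDim (Localization.AtPrime P) = (((r + h : ℕ) : ℕ∞) : WithBot ℕ∞) ∧
              (((r + h : ℕ) : ℕ∞) : WithBot ℕ∞) + ((s : ℕ) : WithBot ℕ∞) ≤ ringKrullDim R ∧
              IsLocalRing.maximalIdeal (Localization.AtPrime P) =
                Ideal.span ((Set.range fun i => algebraMap A (Localization.AtPrime P) (u i)) ∪
                  Set.range fun j => algebraMap A (Localization.AtPrime P) (w j)) ∧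
              (∀ m : Fin r → ℤ, V.valuation (∏ i, (u i : K) ^ m i) = 1 → m = 0) ∧
              (∀ f ∈ F, ∃ m : Fin r → ℤ,
                IsUnitMulMonomial A P u m f ∧ (f ∈ V → ∀ i, 0 ≤ m i)) ∧
              ∀ z : A, ∃ d e : R, algebraMap R K d * z = algebraMap R K e ∧
                ∃ m : Fin r → ℤ, (∀ i, 0 ≤ m i) ∧
                  IsUnitMulMonomial A P u m (algebraMap R K d) := by
  intro R _ _ _ _ K _ _ _ H V hRV hRm r hV s y hyV hy F hF
  have hR : TC.GoodBase R := TC.goodBase_of_qe R H
  refine TC.emb3_to_subalgebra V hRV (fun z => ?_)
    (TC.finQ R K V hRV hRm (unif hR hV) y hyV hy) F hF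
  obtain ⟨⟨a, b⟩, hab⟩ := IsLocalization.surj (nonZeroDivisors R) z
  refine ⟨_, ⟨a, rfl⟩, _, ⟨b, rfl⟩, ?_, hab⟩
  intro h0
  exact nonZeroDivisors.ne_zero b.2 (IsFractionRing.injective R K (by rw [h0, map_zero]))

end Pool.Agent.Lib.MP_3029eb_ag.Old.CompositeQuasiExcellent
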