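import Pool.Agent.Lib.TS.Fin
import Pool.Agent.Lib.MP_3029eb_ag.ImpSub

/-!
Embedded local uniformization in characteristic p, in all dimensions, along valuations of rank one
and corank one with free value group and finitely generated residue field.
-/

namespace Pool.Agent.Lib.MP_3029eb_ag.Old.CorankOne

/-- The values of the nonzero elements `x 1, ..., x r` of `K` are rationally independent and generate
the value group of `V`: the value group is a free abelian group of rank `r`. -/
def HasFreeValueGroup {K : Type} [Field K] (V : ValuationSubring K) (r : ℕ) : Prop :=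
  ∃ x : Fin r → K, (∀ i, x i ≠ 0) ∧
    (∀ m : Fin r → ℤ, V.valuation (∏ i, x i ^ m i) = 1 → m = 0) ∧
    ∀ z : K, z ≠ 0 → ∃ m : Fin r → ℤ, V.valuation z = V.valuation (∏ i, x i ^ m i)

/-- The homomorphism from a field `k` with image in `V` to the residue field of `V`. -/
noncomputable def residueMap {k K : Type} [Field k] [Field K] [Algebra k K]
    (V : ValuationSubring K) (h : ∀ c : k, algebraMap k K c ∈ V) :
    k →+* IsLocalRing.ResidueField V :=
  (IsLocalRing.residue V).comp ((algebraMap k K).codRestrict V.toSubring h)

/-- The residue field of `V` is a finitely generated field extension of `k`, of transcendence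
degree `s`. -/
def HasFGResidueField {k K : Type} [Field k] [Field K] [Algebra k K] (V : ValuationSubring K)
    (h : ∀ c : k, algebraMap k K c ∈ V) (s : ℕ) : Prop :=
  letI := (residueMap V h).toAlgebra
  Algebra.EssFiniteType k (IsLocalRing.ResidueField V) ∧
    Algebra.trdeg k (IsLocalRing.ResidueField V) = (s : Cardinal)

/-- The element `f` of `K` is a unit of the localization of `A` at `P` times the Laurent monomial
`∏ u i ^ m i`. -/
def IsUnitMulMonomial {R K : Type} [CommRing R] [Field K] [Algebra R K] (A : Subalgebra R K)
    (P : Ideal A) {r : ℕ} (u : Fin r → A) (m : Fin r → ℤ) (f : K) : Prop :=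
  ∃ a b : A, a ∉ P ∧ b ∉ P ∧ f * b = a * ∏ i, (u i : K) ^ m i

/-- Let `k` be an algebraically closed field of characteristic `p > 0`, `R` a domain which is
essentially of finite type over `k` with fraction field `K`, and `V` a valuation ring of `K` of rank
one containing `R`, whose value group is free of rank `r ≥ 1` and whose residue field is finitely
generated over `k` of transcendence degree `s`, where the transcendence degree of `K` over `k` is
`r + s + 1`.  Then for every finite set `F` of nonzero elements of `K` there is a finitely generated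
`R`-subalgebra `A` of `K` in `V` whose localization `A_P` at the centre `P` of `V` is regular of
dimension `r + 1`, with a regular system of parameters `u 1, ..., u r, w` in `A` such that the values
of the `u i` are rationally independent, every element of `F` is a unit of `A_P` times a Laurent
monomial in the `u i` (a monomial, if the element lies in `V`), and every element of `A` is a fraction
of elements of `R` whose denominator is a unit of `A_P` times a monomial in the `u i`. -/
theorem result :
    ∀ (p : ℕ) [Fact p.Prime] (k : Type) [Field k] [IsAlgClosed k] [CharP k p]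
      (R : Type) [CommRing R] [IsDomain R] [Algebra k R] [Algebra.EssFiniteType k R]
      (K : Type) [Field K] [Algebra R K] [IsFractionRing R K] [Algebra k K] [IsScalarTower k R K]
      (V : ValuationSubring K),
      (∀ a b : K, a ≠ 0 → V.valuation b < 1 → ∃ n : ℕ, V.valuation (b ^ n) ≤ V.valuation a) →
      (∀ a : R, algebraMap R K a ∈ V) →
      ∀ (hk : ∀ c : k, algebraMap k K c ∈ V) (r s : ℕ), 0 < r →
        HasFreeValueGroup V r → HasFGResidueField V hk s →
        Algebra.trdeg k K = ((r + s + 1 : ℕ) : Cardinal) →
        ∀ F : Finset K, (∀ f ∈ F, f ≠ 0) →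
        ∃ A : Subalgebra R K, A.FG ∧ (∀ a : A, (a : K) ∈ V) ∧
          ∃ P : Ideal A, ∃ (_ : P.IsPrime),
            (∀ a : A, a ∈ P ↔ V.valuation (a : K) < 1) ∧
            IsRegularLocalRing (Localization.AtPrime P) ∧
            ringKrullDim (Localization.AtPrime P) = (((r + 1 : ℕ) : ℕ∞) : WithBot ℕ∞) ∧
            ∃ (u : Fin r → A) (w : A),
              IsLocalRing.maximalIdeal (Localization.AtPrime P) =
                Ideal.span ((Set.range fun i => algebraMap A (Localization.AtPrime P) (u i)) ∪
                  {algebraMap A (Localization.AtPrime P) w}) ∧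
              (∀ m : Fin r → ℤ, V.valuation (∏ i, (u i : K) ^ m i) = 1 → m = 0) ∧
              (∀ f ∈ F, ∃ m : Fin r → ℤ,
                IsUnitMulMonomial A P u m f ∧ (f ∈ V → ∀ i, 0 ≤ m i)) ∧
              ∀ z : A, ∃ d e : R, algebraMap R K d * z = algebraMap R K e ∧
                ∃ m : Fin r → ℤ, (∀ i, 0 ≤ m i) ∧
                  IsUnitMulMonomial A P u m (algebraMap R K d) := by
  intro p _ k _ _ _ R _ _ _ _ K _ _ _ _ _ V harch hRV hk r s hr hV hs htr F hF
  obtain ⟨x, hx0, hx, hval⟩ := hV
  have : IsNoetherianRing R := Algebra.EssFiniteType.isNoetherianRing k R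
  have hE : Pool.Agent.Lib.MP_3029eb_ag.Imp.EMB2 V (algebraMap R K).range r 1 :=
    TA.ta_val R k K (p := p) V harch hk hRV r s hr x hx0 hx hval ⟨hs.1, hs.2⟩ htr
  obtain ⟨A, hA, hAV, P, hP, hPV, hreg, hdim, u, w, hmax, hu, hm, hd⟩ :=
    Pool.Agent.Lib.MP_3029eb_ag.Imp.emb2_to_subalgebra V hRV (fun z => by
      obtain ⟨⟨a, b⟩, hab⟩ := IsLocalization.surj (nonZeroDivisors R) z
      refine ⟨_, ⟨a, rfl⟩, _, ⟨b, rfl⟩, ?_, hab⟩
      intro h0
      exact nonZeroDivisors.ne_zero b.2
        (IsFractionRing.injective R K (by rw [h0, map_zero]))) hE F hF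
  refine ⟨A, hA, hAV, P, hP, hPV, hreg, hdim, u, w 0, ?_, hu, hm, hd⟩
  rw [hmax]
  congr 2
  ext z
  constructor
  · rintro ⟨j, rfl⟩
    rw [Subsingleton.elim j 0]
    exact rfl
  · intro hz
    exact ⟨0, hz.symm⟩

end Pool.Agent.Lib.MP_3029eb_ag.Old.CorankOne
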