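import Pool.Agent.Lib.MP_3029eb_ag.AbhE12
import Pool.Agent.Lib.MP_3029eb_ag.AbhE14
import Pool.Agent.Lib.MP_3029eb_ag.GRE3

/-!
Embedded local uniformization (monomialization) of quasi-excellent local domains at all Abhyankar
valuations, of arbitrary rank and in every characteristic.
-/

open scoped TensorProduct

namespace Pool.Agent.Lib.MP_3029eb_ag.Old.EmbeddedAbhyankar

/-- The noetherian local ring `R` is quasi-excellent: its formal fibres are geometrically regular,
that is, for every prime `p` of `R`, every finite extension field `L` of the residue field of `p`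
and every prime `Q` of the tensor product of `L` with the completion of `R`, the localization at
`Q` is a regular local ring. -/
def QuasiExcellent (R : Type) [CommRing R] [IsLocalRing R] : Prop :=
  ∀ (p : Ideal R) [p.IsPrime] (L : Type) [Field L] [Algebra R L]
      [Algebra p.ResidueField L] [IsScalarTower R p.ResidueField L]
      [FiniteDimensional p.ResidueField L]
      (Q : Ideal (L ⊗[R] AdicCompletion (IsLocalRing.maximalIdeal R) R)) [Q.IsPrime],
      IsRegularLocalRing (Localization.AtPrime Q)

/-- `V` is an Abhyankar valuation ring for the local ring `R`, of rational rank `r` and with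
residue transcendence degree `s`: there are `r` nonzero elements of the field `K` with rationally
independent values and `s` elements of `V` whose residues are algebraically independent over the
residue field of `R`, and `dim R ≤ r + s`.  (The opposite inequality always holds if `V`
dominates `R`.) -/
def IsAbhyankar (R K : Type) [CommRing R] [IsLocalRing R] [Field K] [Algebra R K]
    (V : ValuationSubring K) (r s : ℕ) : Prop :=
  ∃ (x : Fin r → K) (y : Fin s → K),
    (∀ i, x i ≠ 0) ∧
    (∀ m : Fin r → ℤ, V.valuation (∏ i, x i ^ m i) = 1 → m = 0) ∧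
    (∀ j, y j ∈ V) ∧
    (∀ p : MvPolynomial (Fin s) R, V.valuation (MvPolynomial.aeval y p) < 1 →
      ∀ m, MvPolynomial.coeff m p ∈ IsLocalRing.maximalIdeal R) ∧
    ringKrullDim R ≤ r + s

/-- The element `f` of `K` is a unit of the localization of `A` at `P` times the Laurent monomial
`∏ u i ^ m i`. -/
def IsUnitMulMonomial {R K : Type} [CommRing R] [Field K] [Algebra R K] (A : Subalgebra R K)
    (P : Ideal A) {r : ℕ} (u : Fin r → A) (m : Fin r → ℤ) (f : K) : Prop :=
  ∃ a b : A, a ∉ P ∧ b ∉ P ∧ f * b = a * ∏ i, (u i : K) ^ m i

/-- Let `R` be a quasi-excellent local domain with fraction field `K`.  Let `V` be a valuation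
ring of `K` dominating `R`, of rational rank `r`, such that `r` plus the transcendence degree of the
residue field of `V` over that of `R` is the dimension of `R`.  Let `F` be a finite set of nonzero
elements of `K`.  Then there is a finitely generated subalgebra `A` of `K` in `V` whose
localization `A_P` at the centre `P` of `V` is regular of dimension `r`, with a regular system of
parameters `u` in `A` such that the values of the `u i` are rationally independent, every element
of `F` is a unit of `A_P` times a Laurent monomial in `u` (a monomial, if the element lies in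
`V`), and every element of `A` is a fraction of elements of `R` whose denominator is a unit of
`A_P` times a monomial in `u`. -/
theorem result :
    ∀ (R : Type) [CommRing R] [IsDomain R] [IsNoetherianRing R] [IsLocalRing R]
      (K : Type) [Field K] [Algebra R K] [IsFractionRing R K],
      QuasiExcellent R →
      ∀ (V : ValuationSubring K),
        (∀ a : R, algebraMap R K a ∈ V) →
        (∀ a : R, a ∈ IsLocalRing.maximalIdeal R ↔ V.valuation (algebraMap R K a) < 1) →
        ∀ r s : ℕ, IsAbhyankar R K V r s →
        ∀ F : Finset K, (∀ f ∈ F, f ≠ 0) →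
        ∃ A : Subalgebra R K, A.FG ∧ (∀ a : A, (a : K) ∈ V) ∧
          ∃ P : Ideal A, ∃ (_ : P.IsPrime),
            (∀ a : A, a ∈ P ↔ V.valuation (a : K) < 1) ∧
            IsRegularLocalRing (Localization.AtPrime P) ∧
            ringKrullDim (Localization.AtPrime P) = r ∧
            ∃ u : Fin r → A,
              IsLocalRing.maximalIdeal (Localization.AtPrime P) =
                Ideal.span (Set.range fun i => algebraMap A (Localization.AtPrime P) (u i)) ∧
              (∀ m : Fin r → ℤ, V.valuation (∏ i, (u i : K) ^ m i) = 1 → m = 0) ∧
              (∀ f ∈ F, ∃ m : Fin r → ℤ,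
                IsUnitMulMonomial A P u m f ∧ (f ∈ V → ∀ i, 0 ≤ m i)) ∧
              ∀ z : A, ∃ d e : R, algebraMap R K d * z = algebraMap R K e ∧
                ∃ m : Fin r → ℤ, (∀ i, 0 ≤ m i) ∧
                  IsUnitMulMonomial A P u m (algebraMap R K d) := by
  intro R _ _ _ _ K _ _ _ H V hRV hRm r s hV F hF
  obtain ⟨x, y, hx0, hx, hyV, hy, hdim⟩ := hV
  refine Pool.Agent.Lib.MP_3029eb_ag.Abh.emb_to_subalgebra V hRV (fun z => ?_)
    (Pool.Agent.Lib.MP_3029eb_ag.Abh.emb_abhyankar R K
      (fun B _ _ _ _ _ _ => Pool.Agent.Lib.MP_3029eb_ag.Abh.anUnr_of_GFR B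
        (Pool.Agent.Lib.MP_3029eb_ag.GR.gfr_of_essFinite R
          (Pool.Agent.Lib.MP_3029eb_ag.GR.isRegularRing_of_regular R H) B))
      V hRV hRm r s x y hx0 hx hyV hy hdim) F hF
  obtain ⟨⟨a, b⟩, hab⟩ := IsLocalization.surj (nonZeroDivisors R) z
  refine ⟨_, ⟨a, rfl⟩, _, ⟨b, rfl⟩, ?_, hab⟩
  intro h0
  exact nonZeroDivisors.ne_zero b.2 (IsFractionRing.injective R K (by rw [h0, map_zero]))

end Pool.Agent.Lib.MP_3029eb_ag.Old.EmbeddedAbhyankar
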