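import Pool.Agent.Lib.TDO.Main
import Pool.Agent.Lib.MP_3029eb_ag.ImpSub

/-!
Embedded local uniformization, in positive characteristic and in every dimension `r + 1`, along all
valuations of rank one and rational rank `r` whose residue field is the algebraically closed ground
field.  The value group is arbitrary and the valuation may have defect extensions.
-/

namespace Pool.Agent.Lib.MP_3029eb_ag.Old.TranscendenceDefectOne

/-- The rational rank of the valuation ring `V` of the field `K` is `r`: there are `r` nonzero
elements of `K` with rationally independent values, but no `r + 1` such elements. -/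
def HasRationalRank {K : Type} [Field K] (V : ValuationSubring K) (r : ℕ) : Prop :=
  (∃ x : Fin r → K, (∀ i, x i ≠ 0) ∧
    ∀ m : Fin r → ℤ, V.valuation (∏ i, x i ^ m i) = 1 → m = 0) ∧
  ∀ z : Fin (r + 1) → K, (∀ i, z i ≠ 0) →
    ∃ m : Fin (r + 1) → ℤ, m ≠ 0 ∧ V.valuation (∏ i, z i ^ m i) = 1

/-- The element `f` of `K` is a unit of the localization of `A` at `P` times the Laurent monomial
`∏ u i ^ m i`. -/
def IsUnitMulMonomial {R K : Type} [CommRing R] [Field K] [Algebra R K] (A : Subalgebra R K)
    (P : Ideal A) {r : ℕ} (u : Fin r → A) (m : Fin r → ℤ) (f : K) : Prop :=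
  ∃ a b : A, a ∉ P ∧ b ∉ P ∧ f * b = a * ∏ i, (u i : K) ^ m i

/-- Let `k` be an algebraically closed field of characteristic `p > 0`, let `R` be a local domain
essentially of finite type over `k`, and suppose that its fraction field `K` has transcendence
degree `r + 1` over `k`, `r ≥ 1`.  Let `V` be a valuation ring of `K` of rank one and rational rank
`r` which dominates `R` and has residue field `k`.  Let `F` be a finite set of nonzero elements of
`K`.  Then there is a finitely generated subalgebra `A` of `K` in `V` whose localization `A_P` at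
the centre `P` of `V` is regular of dimension `r + 1`, with a regular system of parameters
`u 1, ..., u r, w` in `A` such that the values of the `u i` are rationally independent, every
element of `F` is a unit of `A_P` times a Laurent monomial in the `u i` (a monomial, if the element
lies in `V`), and every element of `A` is a fraction of elements of `R` whose denominator is a unit
of `A_P` times a monomial in the `u i`. -/
theorem result :
    ∀ (p : ℕ) [Fact p.Prime] (k : Type) [Field k] [IsAlgClosed k] [CharP k p]
      (R : Type) [CommRing R] [IsDomain R] [IsLocalRing R] [Algebra k R]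
      [Algebra.EssFiniteType k R]
      (K : Type) [Field K] [Algebra R K] [IsFractionRing R K] [Algebra k K] [IsScalarTower k R K]
      (V : ValuationSubring K) (r : ℕ), 0 < r →
        Algebra.trdeg k K = (r + 1 : ℕ) →
        (∀ a : R, algebraMap R K a ∈ V) →
        (∀ a : R, a ∈ IsLocalRing.maximalIdeal R ↔ V.valuation (algebraMap R K a) < 1) →
        (∀ a b : K, a ≠ 0 → V.valuation b < 1 → ∃ n : ℕ, V.valuation (b ^ n) ≤ V.valuation a) →
        HasRationalRank V r →
        (∀ z ∈ V, ∃ c : k, V.valuation (z - algebraMap k K c) < 1) →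
        ∀ F : Finset K, (∀ f ∈ F, f ≠ 0) →
        ∃ A : Subalgebra R K, A.FG ∧ (∀ a : A, (a : K) ∈ V) ∧
          ∃ P : Ideal A, ∃ (_ : P.IsPrime),
            (∀ a : A, a ∈ P ↔ V.valuation (a : K) < 1) ∧
            IsRegularLocalRing (Localization.AtPrime P) ∧
            ringKrullDim (Localization.AtPrime P) = ((r + 1 : ℕ) : WithBot ℕ∞) ∧
            ∃ (u : Fin r → A) (w : A),
              IsLocalRing.maximalIdeal (Localization.AtPrime P) =
                Ideal.span ((Set.range fun i => algebraMap A (Localization.AtPrime P) (u i)) ∪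
                  {algebraMap A (Localization.AtPrime P) w}) ∧
              (∀ m : Fin r → ℤ, V.valuation (∏ i, (u i : K) ^ m i) = 1 → m = 0) ∧
              (∀ f ∈ F, ∃ m : Fin r → ℤ,
                IsUnitMulMonomial A P u m f ∧ (f ∈ V → ∀ i, 0 ≤ m i)) ∧
              ∀ z : A, ∃ d e : R, algebraMap R K d * z = algebraMap R K e ∧
                ∃ m : Fin r → ℤ, (∀ i, 0 ≤ m i) ∧
                  IsUnitMulMonomial A P u m (algebraMap R K d) := by
  intro p _ k _ _ _ R _ _ _ _ _ K _ _ _ _ _ V r hr htr hRV hRm harch hrk hres F hF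
  obtain ⟨⟨x, hx0, hx⟩, hrank⟩ := hrk
  have hN : IsNoetherianRing R := Algebra.EssFiniteType.isNoetherianRing k R
  have hE := Pool.Agent.Lib.TDO.main_emb p k R K V harch hRV hRm hres r hr htr x hx0 hx hrank
  obtain ⟨A, hA, hAV, P, hP, hPm, hreg, hdim, u, w, hmax, hu, hFm, hden⟩ :=
    Pool.Agent.Lib.MP_3029eb_ag.Imp.emb2_to_subalgebra V hRV (fun z => by
      obtain ⟨⟨a, b⟩, hab⟩ := IsLocalization.surj (nonZeroDivisors R) z
      refine ⟨_, ⟨a, rfl⟩, _, ⟨b, rfl⟩, ?_, hab⟩
      intro h0
      exact nonZeroDivisors.ne_zero b.2 (IsFractionRing.injective R K (by rw [h0, map_zero])))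
      hE F hF
  refine ⟨A, hA, hAV, P, hP, hPm, hreg, hdim, u, w 0, ?_, hu, hFm, hden⟩
  rw [hmax]
  congr 2
  ext t
  constructor
  · rintro ⟨j, rfl⟩
    rw [Subsingleton.elim j 0]
    exact rfl
  · rintro rfl
    exact ⟨0, rfl⟩

end Pool.Agent.Lib.MP_3029eb_ag.Old.TranscendenceDefectOne
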