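import Pool.Agent.Lib.TE.Bases
import Pool.Agent.Lib.MX.QBase
import Pool.Agent.Lib.TC.Base
import Pool.Agent.Lib.TC.Out

/-!
Embedded local uniformization of domains essentially of finite type over quasi-excellent local
rings, in every dimension and characteristic, along the smallest class of valuations which contains
the discrete valuations, the Abhyankar valuations, the valuations of rank one which are Abhyankar
modulo the implicit prime and, in mixed characteristic and in characteristic `p`, the valuations of
rank one which have transcendence defect at most one modulo the implicit prime, and which is closed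
under composition and under dense finitely generated separable extensions.
-/

open scoped TensorProduct

namespace Pool.Agent.Lib.MP_3029eb_ag.Old.UniformizableClassMixed

/-- The noetherian local ring `R` is quasi-excellent: its formal fibres are geometrically regular,
that is, for every prime `p` of `R`, every finite extension field `L` of the residue field of `p`
and every prime `Q` of the tensor product of `L` with the completion of `R`, the localization at
`Q` is a regular local ring. -/
def QuasiExcellent (R : Type) [CommRing R] [IsLocalRing R] : Prop :=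
  ∀ (p : Ideal R) [p.IsPrime] (L : Type) [Field L] [Algebra R L]
      [Algebra p.ResidueField L] [IsScalarTower R p.ResidueField L]
      [FiniteDimensional p.ResidueField L]
      (Q : Ideal (L ⊗[R] AdicCompletion (IsLocalRing.maximalIdeal R) R)) [Q.IsPrime],
      IsRegularLocalRing (Localization.AtPrime Q)

/-- The value group of `V` is infinite cyclic: `V` is a discrete valuation of rank one. -/
def IsDiscrete {K : Type} [Field K] (V : ValuationSubring K) : Prop :=
  ∃ π : K, π ≠ 0 ∧ V.valuation π < 1 ∧
    ∀ z : K, z ≠ 0 → ∃ n : ℤ, V.valuation z = V.valuation (π ^ n)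

/-- The value group of `V` is archimedean: `V` has rank at most one. -/
def IsRankOne {K : Type} [Field K] (V : ValuationSubring K) : Prop :=
  ∀ a b : K, a ≠ 0 → V.valuation b < 1 → ∃ n : ℕ, V.valuation (b ^ n) ≤ V.valuation a

/-- `A` is a finitely generated `R`-algebra contained in `V`, `P` is the centre of `V` on `A`, and `K`
is algebraic over `A`. -/
structure IsModel {R K : Type} [CommRing R] [Field K] [Algebra R K]
    (V : ValuationSubring K) (A : Subalgebra R K) (P : Ideal A) : Prop where
  fg : A.FG
  le : ∀ a : A, (a : K) ∈ V
  centre : ∀ a : A, a ∈ P ↔ V.valuation (a : K) < 1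
  alg : Algebra.IsAlgebraic A K

/-- The `x i` are nonzero elements of `K` whose values are rationally independent, and the `y j` are
elements of `V` whose residues are algebraically independent over `A / P`, where `P` is the centre of
`V` on `A`. -/
structure IsIndependent {R K : Type} [CommRing R] [Field K] [Algebra R K]
    (V : ValuationSubring K) (A : Subalgebra R K) {r s : ℕ} (x : Fin r → K) (y : Fin s → K) :
    Prop where
  ne_zero : ∀ i, x i ≠ 0
  value : ∀ m : Fin r → ℤ, V.valuation (∏ i, x i ^ m i) = 1 → m = 0
  mem : ∀ j, y j ∈ V
  residue : ∀ p : MvPolynomial (Fin s) A, V.valuation (MvPolynomial.aeval y p) < 1 →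
    ∀ m, V.valuation ((MvPolynomial.coeff m p : A) : K) < 1

/-- Any `r + 1` nonzero elements of `K` have rationally dependent values: `V` has rational rank at
most `r`. -/
def DependentValues {K : Type} [Field K] (V : ValuationSubring K) (r : ℕ) : Prop :=
  ∀ z : Fin (r + 1) → K, (∀ i, z i ≠ 0) →
    ∃ m : Fin (r + 1) → ℤ, m ≠ 0 ∧ V.valuation (∏ i, z i ^ m i) = 1

/-- The implicit ideal of `V` in the completion of the local ring of `A` at the centre `P` of `V`: the
intersection, over all nonzero elements `d` of `A`, of the ideals generated by the elements of `A`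
whose value is at least the value of `d`. -/
noncomputable def implicitIdeal {R K : Type} [CommRing R] [Field K] [Algebra R K]
    (V : ValuationSubring K) (A : Subalgebra R K) (P : Ideal A) [P.IsPrime] :
    Ideal (AdicCompletion (IsLocalRing.maximalIdeal (Localization.AtPrime P))
      (Localization.AtPrime P)) :=
  ⨅ d : {d : A // d ≠ 0}, Ideal.span
    ((fun a : A => algebraMap (Localization.AtPrime P)
      (AdicCompletion (IsLocalRing.maximalIdeal (Localization.AtPrime P)) (Localization.AtPrime P))
      (algebraMap A (Localization.AtPrime P) a)) ''
      {a : A | V.valuation (a : K) ≤ V.valuation ((d : A) : K)})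

/-- The dimension of the completion of the local ring of `A` at the centre `P` of `V` modulo the
implicit ideal of `V`. -/
noncomputable def implicitDim {R K : Type} [CommRing R] [Field K] [Algebra R K]
    (V : ValuationSubring K) (A : Subalgebra R K) (P : Ideal A) [P.IsPrime] : WithBot ℕ∞ :=
  ringKrullDim (AdicCompletion (IsLocalRing.maximalIdeal (Localization.AtPrime P))
    (Localization.AtPrime P) ⧸ implicitIdeal V A P)

/-- `V` is an Abhyankar valuation (of any rank): for some model `A` the local ring of `A` at `P` has
dimension at most `r + s`, with `r` independent values and `s` independent residues (so equality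
holds in Abhyankar's inequality for `V` over this local ring). -/
def IsAbhyankar (R : Type) {K : Type} [CommRing R] [Field K] [Algebra R K]
    (V : ValuationSubring K) (r : ℕ) : Prop :=
  ∃ (A : Subalgebra R K) (P : Ideal A), IsModel V A P ∧
    ∃ (s : ℕ) (x : Fin r → K) (y : Fin s → K), IsIndependent V A x y ∧
      P.height ≤ ((r + s : ℕ) : ℕ∞)

/-- `V` has rank one and is an Abhyankar valuation modulo the implicit prime: for some model `A`, with
`r ≥ 1` independent values and `s` independent residues, the completion of `A` at `P` modulo the
implicit ideal has dimension at most `r + s`. -/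
def IsImplicitlyAbhyankar (R : Type) {K : Type} [CommRing R] [Field K] [Algebra R K]
    (V : ValuationSubring K) (r : ℕ) : Prop :=
  0 < r ∧ IsRankOne V ∧
    ∃ (A : Subalgebra R K) (P : Ideal A) (_ : P.IsPrime), IsModel V A P ∧
      ∃ (s : ℕ) (x : Fin r → K) (y : Fin s → K), IsIndependent V A x y ∧
        implicitDim V A P ≤ ((r + s : ℕ) : WithBot ℕ∞)

/-- `V` has residue characteristic `p > 0` and transcendence defect at most one modulo the implicit
prime: some prime number `p` lies in the maximal ideal of `V` (so `K` has characteristic `0` or `p`),
the value group of `V` is archimedean of rational rank `r ≥ 1`, and for some model `A`, with `s`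
independent residues, the completion of `A` at `P` modulo the implicit ideal has dimension at most
`r + s + 1`.  If `K` has characteristic `p`, the residue field of `A` at `P` is moreover finitely
generated over a perfect field; there is no condition on it if `K` has characteristic `0`.  No
condition on the value group, on the residue field of `V` or on the defect (in the sense of
ramification theory) is made. -/
def HasDefectOne (R : Type) {K : Type} [CommRing R] [Field K] [Algebra R K]
    (V : ValuationSubring K) (r : ℕ) : Prop :=
  0 < r ∧ IsRankOne V ∧ DependentValues V r ∧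
    ∃ (p : ℕ) (A : Subalgebra R K) (P : Ideal A) (_ : P.IsPrime), p.Prime ∧
      V.valuation (p : K) < 1 ∧ IsModel V A P ∧
      ((p : K) = 0 → ∃ (k : Type) (_ : Field k) (_ : PerfectField k) (_ : Algebra k P.ResidueField),
        Algebra.EssFiniteType k P.ResidueField) ∧
      ∃ (s : ℕ) (x : Fin r → K) (y : Fin s → K), IsIndependent V A x y ∧
        implicitDim V A P ≤ ((r + s + 1 : ℕ) : WithBot ℕ∞)

/-- The field extension `K / K1` is finitely generated and separable: it has a finite separating
transcendence basis `u`. -/
def IsFGSeparable (K1 K : Type) [Field K1] [Field K] [Algebra K1 K] : Prop :=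
  ∃ (l : ℕ) (u : Fin l → K), AlgebraicIndependent K1 u ∧
    Algebra.IsSeparable (IntermediateField.adjoin K1 (Set.range u)) K ∧
    FiniteDimensional (IntermediateField.adjoin K1 (Set.range u)) K

/-- The subfield `K1` is dense in `K` for the topology defined by `V`. -/
def IsDenseIn (K1 : Type) {K : Type} [Field K1] [Field K] [Algebra K1 K]
    (V : ValuationSubring K) : Prop :=
  ∀ z a : K, a ≠ 0 → ∃ z1 : K1, V.valuation (z - algebraMap K1 K z1) < V.valuation a

/-- The class of all `(K, V, r)`, where `K` is a field with a homomorphism from `R`, `V` is a
valuation ring of `K` and `r` is its rational rank, generated by the following rules.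

* `(K, K, 0)`, the discrete valuations (`r = 1`), the Abhyankar valuations, the valuations of rank one
  which are Abhyankar modulo the implicit prime, and the valuations of rank one and residue
  characteristic `p > 0` with transcendence defect at most one modulo the implicit prime (in mixed
  characteristic and in characteristic `p`) belong to the class.
* Dense extensions: if `K` is a finitely generated separable extension of `K1`, the field `K1` is
  dense in `K` for `V`, and `V` restricted to `K1` belongs to the class, then `V` belongs to the
  class.  (The transcendence degree of `K` over `K1` is arbitrary.)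
* Composition: let `V1` contain `V` and let `W` be the valuation ring induced by `V` on the residue
  field `κ` of `V1`.  If `V1` belongs to the class, and if for some finite subset `G` of `κ` and every
  subfield `L` of `κ` containing `G` and finitely generated over `R` the restriction of `W` to `L`
  belongs to the class, then `V` belongs to the class. -/
inductive InClass (R : Type) [CommRing R] :
    ∀ (K : Type) [Field K] [Algebra R K], ValuationSubring K → ℕ → Prop
  | trivial (K : Type) [Field K] [Algebra R K] : InClass R K ⊤ 0
  | discrete (K : Type) [Field K] [Algebra R K] (V : ValuationSubring K) :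
      IsDiscrete V → InClass R K V 1
  | abhyankar (K : Type) [Field K] [Algebra R K] (V : ValuationSubring K) (r : ℕ) :
      IsAbhyankar R V r → InClass R K V r
  | implicit (K : Type) [Field K] [Algebra R K] (V : ValuationSubring K) (r : ℕ) :
      IsImplicitlyAbhyankar R V r → InClass R K V r
  | defectOne (K : Type) [Field K] [Algebra R K] (V : ValuationSubring K) (r : ℕ) :
      HasDefectOne R V r → InClass R K V r
  | dense (K1 K : Type) [Field K1] [Field K] [Algebra R K1] [Algebra R K] [Algebra K1 K]
      [IsScalarTower R K1 K] (V : ValuationSubring K) (r : ℕ) :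
      InClass R K1 (V.comap (algebraMap K1 K)) r → IsFGSeparable K1 K → IsDenseIn K1 V →
      InClass R K V r
  | composite (K : Type) [Field K] [Algebra R K] (V1 V : ValuationSubring K)
      (W : ValuationSubring (IsLocalRing.ResidueField V1))
      (G : Finset (IsLocalRing.ResidueField V1)) (r1 r2 : ℕ) :
      V ≤ V1 → (∀ z : V1, IsLocalRing.residue V1 z ∈ W ↔ (z : K) ∈ V) →
      InClass R K V1 r1 →
      (∀ (L : Type) [Field L] [Algebra R L] [Algebra.EssFiniteType R L]
        (j : L →+* IsLocalRing.ResidueField V1),
        (∀ (c : R) (hc : algebraMap R K c ∈ V1),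
          j (algebraMap R L c) = IsLocalRing.residue V1 ⟨algebraMap R K c, hc⟩) →
        (∀ g ∈ G, g ∈ j.range) → InClass R L (W.comap j) r2) →
      InClass R K V (r1 + r2)

/-- The element `f` of `K` is a unit of the localization of `A` at `P` times the Laurent monomial
`∏ u i ^ m i`. -/
def IsUnitMulMonomial {R K : Type} [CommRing R] [Field K] [Algebra R K] (A : Subalgebra R K)
    (P : Ideal A) {r : ℕ} (u : Fin r → A) (m : Fin r → ℤ) (f : K) : Prop :=
  ∃ a b : A, a ∉ P ∧ b ∉ P ∧ f * b = a * ∏ i, (u i : K) ^ m i

theorem unif {R : Type} [CommRing R] (hR : TC.GoodBase R) {K : Type} [Field K] [Algebra R K]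
    {V : ValuationSubring K} {r : ℕ} (h : InClass R K V r) :
    TC.Unif (algebraMap R K) V r := by
  have hRn : IsNoetherianRing R := hR.1
  induction h with
  | trivial K => exact TC.Unif_top _
  | discrete K V h2 =>
    obtain ⟨π, h3, h4, h5⟩ := h2
    exact Pool.Agent.Lib.TE.base_disc hR V π h3 h4 h5
  | abhyankar K V r h2 =>
    obtain ⟨A, P, M, s, x, y, I, hdim⟩ := h2
    exact Pool.Agent.Lib.TE.base_abh hR V A M.fg M.le P M.centre M.alg x I.ne_zero I.value y I.mem
      I.residue hdim
  | implicit K V r h2 =>
    obtain ⟨hr, harch, A, P, hP, M, s, x, y, I, hdim⟩ := h2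
    exact Pool.Agent.Lib.TE.base_impl hR V harch A M.fg M.le P M.centre M.alg hr x I.ne_zero
      I.value y I.mem I.residue hdim
  | defectOne K V r h2 =>
    obtain ⟨hr, harch, hrank, p, A, P, hP, hp, hp1, M, hk, s, x, y, I, hdim⟩ := h2
    have : Fact p.Prime := ⟨hp⟩
    by_cases hp0 : (p : K) = 0
    · obtain ⟨k, i1, i2, i3, hk⟩ := hk hp0
      exact Pool.Agent.Lib.TE.base_def1 p hR V harch A M.fg M.le P M.centre M.alg hr x I.ne_zero
        I.value hrank y I.mem I.residue hp0 hk hdim
    · exact Pool.Agent.Lib.MXB.base_defM p hR V harch A M.fg M.le P M.centre M.alg hr x I.ne_zero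
        I.value hrank y I.mem I.residue hp0 hp1 hdim
  | dense K1 K V r _ h2 h3 ih =>
    obtain ⟨l, u, hu, hsep, hfin⟩ := h2
    have h4 := Pool.Agent.Lib.TE.unif_dense' (algebraMap R K1) V h3 u hu hsep hfin ih
    rwa [← IsScalarTower.algebraMap_eq R K1 K] at h4
  | composite K V1 V W G r1 r2 hle hW _ _ ih1 ih2 =>
    have hW' : W = Pool.Agent.Lib.MP_3029eb_ag.resV V V1 hle := by
      ext w
      rw [Pool.Agent.Lib.MP_3029eb_ag.C1_mem_resV]
      constructor
      · intro hw
        obtain ⟨z, rfl⟩ := IsLocalRing.residue_surjective w
        exact ⟨z, (hW z).1 hw, rfl⟩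
      · rintro ⟨z, hz, rfl⟩
        exact (hW z).2 hz
    refine Pool.Agent.Lib.TE.unif_comp (algebraMap R K) hle G ih1 ?_
    intro L _ ψ j hψ hj hG
    let _ : Algebra R L := ψ.toAlgebra
    have h1 : Algebra.EssFiniteType R L := hψ
    have h2 := ih2 L j (fun c hc => by
      obtain ⟨hc', h3⟩ := hj c
      exact h3) hG
    rw [hW'] at h2
    exact h2

/-- Let `R0` be a quasi-excellent noetherian local ring (for instance a field, or `R` itself) and let
`R` be a domain essentially of finite type over `R0`, with fraction field `K`.  Let `V` be a valuation
ring of `K` containing `R`, with centre `P0` on `R`, which belongs to the class `InClass` over `R0`, and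
let `y 1, ..., y s` be elements of `V` whose residues are algebraically independent over `R / P0` (for
instance `s = 0`).  Let `F` be a finite set of nonzero elements of `K`.  Then there is a finitely
generated `R`-subalgebra `A` of `K` in `V` whose localization `A_P` at the centre `P` of `V` is regular
of some dimension `r + h ≤ height P0 - s`, with a regular system of parameters
`u 1, ..., u r, w 1, ..., w h` in `A` such that the values of the `u i` are rationally independent,
every element of `F` is a unit of `A_P` times a Laurent monomial in the `u i` (a monomial, if the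
element lies in `V`), and every element of `A` is a fraction of elements of `R` whose denominator is
a unit of `A_P` times a monomial in the `u i`. -/
theorem result :
    ∀ (R0 : Type) [CommRing R0] [IsNoetherianRing R0] [IsLocalRing R0], QuasiExcellent R0 →
      ∀ (R : Type) [CommRing R] [IsDomain R] [Algebra R0 R] [Algebra.EssFiniteType R0 R]
        (K : Type) [Field K] [Algebra R K] [IsFractionRing R K] [Algebra R0 K]
        [IsScalarTower R0 R K] (V : ValuationSubring K),
        (∀ a : R, algebraMap R K a ∈ V) →
        ∀ P0 : Ideal R, (∀ a : R, a ∈ P0 ↔ V.valuation (algebraMap R K a) < 1) →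
        ∀ r : ℕ, InClass R0 K V r →
        ∀ (s : ℕ) (y : Fin s → K), (∀ j, y j ∈ V) →
        (∀ p : MvPolynomial (Fin s) R, V.valuation (MvPolynomial.aeval y p) < 1 →
          ∀ m, MvPolynomial.coeff m p ∈ P0) →
        ∀ F : Finset K, (∀ f ∈ F, f ≠ 0) →
        ∃ A : Subalgebra R K, A.FG ∧ (∀ a : A, (a : K) ∈ V) ∧
          ∃ P : Ideal A, ∃ (_ : P.IsPrime),
            (∀ a : A, a ∈ P ↔ V.valuation (a : K) < 1) ∧
            IsRegularLocalRing (Localization.AtPrime P) ∧
            ∃ (h : ℕ) (u : Fin r → A) (w : Fin h → A),
              ringKrullDim (Localization.AtPrime P) = (((r + h : ℕ) : ℕ∞) : WithBot ℕ∞) ∧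
              ((r + h + s : ℕ) : ℕ∞) ≤ P0.height ∧
              IsLocalRing.maximalIdeal (Localization.AtPrime P) =
                Ideal.span ((Set.range fun i => algebraMap A (Localization.AtPrime P) (u i)) ∪
                  Set.range fun j => algebraMap A (Localization.AtPrime P) (w j)) ∧
              (∀ m : Fin r → ℤ, V.valuation (∏ i, (u i : K) ^ m i) = 1 → m = 0) ∧
              (∀ f ∈ F, ∃ m : Fin r → ℤ,
                IsUnitMulMonomial A P u m f ∧ (f ∈ V → ∀ i, 0 ≤ m i)) ∧
              ∀ z : A, ∃ d e : R, algebraMap R K d * z = algebraMap R K e ∧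
                ∃ m : Fin r → ℤ, (∀ i, 0 ≤ m i) ∧
                  IsUnitMulMonomial A P u m (algebraMap R K d) := by
  intro R0 _ _ _ H R _ _ _ _ K _ _ _ _ _ V hRV P0 hP0 r hV s y hyV hy F hF
  have hR : TC.GoodBase R0 := TC.goodBase_of_qe R0 H
  have hRn : IsNoetherianRing R := Algebra.EssFiniteType.isNoetherianRing R0 R
  have hPp : P0.IsPrime := by
    refine ⟨?_, ?_⟩
    · rw [Ne, Ideal.eq_top_iff_one, hP0, map_one, map_one]
      exact lt_irrefl 1
    · intro a b hab
      by_contra hcon
      push Not at hcon
      have hval : ∀ a : R, a ∉ P0 → V.valuation (algebraMap R K a) = 1 := by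
        intro a ha
        rw [hP0, not_lt] at ha
        exact le_antisymm ((V.valuation_le_one_iff _).2 (hRV a)) ha
      rw [hP0, map_mul, map_mul, hval a hcon.1, hval b hcon.2, one_mul] at hab
      exact lt_irrefl 1 hab
  obtain ⟨A, hA, hAV, P, hP, hPV, hreg, h, u, w, hdim, hD, hmax, hu, hm, hd⟩ :=
    TC.emb3_to_subalgebra V hRV (fun z => by
      obtain ⟨⟨a, b⟩, hab⟩ := IsLocalization.surj (nonZeroDivisors R) z
      refine ⟨_, ⟨a, rfl⟩, _, ⟨b, rfl⟩, ?_, hab⟩
      intro h0
      exact nonZeroDivisors.ne_zero b.2
        (IsFractionRing.injective R K (by rw [h0, map_zero])))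
      (Pool.Agent.Lib.TE.finE (R0 := R0) V hRV P0 hP0 (unif hR hV) y hyV hy) F hF
  refine ⟨A, hA, hAV, P, hP, hPV, hreg, h, u, w, hdim, ?_, hmax, hu, hm, hd⟩
  exact_mod_cast hD

end Pool.Agent.Lib.MP_3029eb_ag.Old.UniformizableClassMixed
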